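import Mathlib

/-!
Project CARDY, block B2: definitions and statements.

`x = X + 1/X`, `T = X^3`, `y = x^3 - 3x = T + 1/T`, `N`-variable functions
`Z_N = det(bas_j(x_i)) / det(x_i^j)`.
-/

namespace Pool.Agent.H981R2.CD

open Polynomial

/-- the basis `1, x, y, x y, y², …` with `y = x³ - 3x` -/
noncomputable def bas (j : ℕ) (x : ℂ) : ℂ := (x^3 - 3*x)^(j/2) * x^(j%2)

/-- `Z N (x_1,…,x_N)` is the quotient `det(bas_j(x_i)) / det(x_i^j)`, continuous everywhere. -/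
structure IsZ (Z : (N : ℕ) → (Fin N → ℂ) → ℂ) : Prop where
  cont : ∀ N, Continuous (Z N)
  det : ∀ (N : ℕ) (x : Fin N → ℂ),
    Z N x * (Matrix.vandermonde x).det = (Matrix.of fun i j : Fin N => bas j (x i)).det

/-- the properties of the Padé polynomials that are used (`P n, Ps n ∈ ℚ[T]`) -/
structure IsPade (P Ps : ℕ → ℚ[X]) : Prop where
  deg : ∀ n, (P n).natDegree ≤ n
  refl : ∀ n, Ps n = (P n).reflect n
  const : ∀ n, (P n).coeff 0 = 1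
  div : ∀ n, (X - 1)^(2*n+1) ∣ X * expand ℚ 3 (Ps n) - expand ℚ 3 (P n)

/-- `p(X³)` as a complex polynomial -/
noncomputable def cx (p : ℚ[X]) : ℂ[X] := expand ℂ 3 (p.map (algebraMap ℚ ℂ))

/-- Taylor series at `X = 1` -/
noncomputable def ts {K : Type} [Field K] : K[X] →+* PowerSeries K :=
  (Polynomial.coeToPowerSeries.ringHom).comp (Polynomial.compRingHom (X + 1))

/-- the residue at `X = 1` of `p / (d (X-1)^(m+1))` (for `d(1) ≠ 0`) -/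
noncomputable def res {K : Type} [Field K] (m : ℕ) (p d : K[X]) : K :=
  PowerSeries.coeff m (ts p * (ts d)⁻¹)

/-- `1 - p(a,b)` as a formal residue, `L = a+b+1` -/
noncomputable def rho (P Ps : ℕ → ℚ[X]) (a b : ℕ) : ℂ :=
  3/2 * res (2*(a+b+1) - 1)
    ((X-1)^2 * cx (P a) * cx (P (a+b+1)) * (X * cx (Ps b) - cx (P b)))
    (X * (X^2 - X + 1) * (X^2+X+1)^(2*(a+b+1)))

/-- `M_L(h) = 3 Res_{X=1} P_L(X³) h(X³)/(X³-1)^(2L) dX` -/
noncomputable def ML (P : ℕ → ℚ[X]) (L : ℕ) (h : ℚ[X]) : ℚ :=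
  3 * res (2*L-1) (expand ℚ 3 (P L * h)) ((X^2+X+1)^(2*L))

/-- a point with first coordinate `x` and all others equal to `2` (that is `ζ = 1`) -/
noncomputable def pt (N : ℕ) (x : ℂ) : Fin (N+1) → ℂ := Fin.cons x (fun _ => 2)

/-- the integrand of B1: `(X - 1/X)(X + 1/X + 1) Z(1^a, ω²X) Z(1^L, ωX) Z(1^b, X)
/ (X (X+1/X-2)^a (2 - ω²X - ω/X)^(b+1))`, `L = a+b+1`, `ω² + ω + 1 = 0`. -/
noncomputable def integrand (Z : (N : ℕ) → (Fin N → ℂ) → ℂ) (ω : ℂ) (a b : ℕ) (X : ℂ) : ℂ :=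
  X⁻¹ * (X - X⁻¹) * (X + X⁻¹ + 1) * Z (a+1) (pt a (ω^2*X + ω*X⁻¹)) *
    Z (a+b+1+1) (pt (a+b+1) (ω*X + ω^2*X⁻¹)) * Z (b+1) (pt b (X + X⁻¹)) /
    ((X + X⁻¹ - 2)^a * (2 - ω^2*X - ω*X⁻¹)^(b+1))

/-! ## statements -/

/-- sparse polynomials: at most `M` monomials and divisible by `(X-1)^M` implies zero -/
def S_sparse : Prop :=
  ∀ (M : ℕ) (f : ℂ[X]), f.support.card ≤ M → (X - 1)^M ∣ f → f = 0

/-- structure of `Z_N(x, 2, …, 2)` -/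
def S_span : Prop :=
  ∀ Z, IsZ Z → ∀ N : ℕ, ∃ c : Fin (N+1) → ℂ, c (Fin.last N) = Z N (fun _ => 2) ∧
    ∀ x : ℂ, Z (N+1) (pt N x) * (x - 2)^N = ∑ j : Fin (N+1), c j * bas j x

/-- identification with the Padé polynomials: `n` odd -/
def S_fN : Prop :=
  ∀ Z, IsZ Z → ∀ P Ps, IsPade P Ps → ∀ n : ℕ, Odd n → ∀ x : ℂ, x ≠ 0 →
    Z (n+1) (pt n (x + x⁻¹)) * (x - x⁻¹) * (x + x⁻¹ - 2)^n * x^(3*((n+1)/2)) =
      Z n (fun _ => 2) * x * (x * (cx (Ps n)).eval x - (cx (P n)).eval x)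

/-- circle integral = formal residue -/
def S_circ : Prop :=
  ∀ (m : ℕ) (p d : ℂ[X]) (r : ℝ), 0 < r → (∀ z : ℂ, z ∈ Metric.closedBall (1:ℂ) r → d.eval z ≠ 0) →
    (∮ z in C(1, r), p.eval z / (d.eval z * (z - 1)^(m+1))) =
      2 * Real.pi * Complex.I * res m p d

/-- the integrand in terms of the Padé polynomials -/
def S_integrand : Prop :=
  ∀ Z, IsZ Z → ∀ P Ps, IsPade P Ps → ∀ (ω : ℂ), ω^2 + ω + 1 = 0 → ∀ a b : ℕ, Odd a → Odd b →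
    ∀ x : ℂ, x ≠ 0 → x^3 ≠ 1 → x^2 - x + 1 ≠ 0 → x^2 ≠ 1 →
      integrand Z ω a b x = Z a (fun _ => 2) * Z b (fun _ => 2) * Z (a+b+1) (fun _ => 2) *
        (((X - 1)^2 * (C (ω^2) * X * cx (Ps a) - cx (P a)) *
          (C ω * X * cx (Ps (a+b+1)) - cx (P (a+b+1))) * (X * cx (Ps b) - cx (P b))).eval x /
        ((X * (X^2 - X + 1) * (X^2+X+1)^(2*(a+b+1))).eval x * (x - 1)^(2*(a+b+1))))

/-- the errors do not contribute -/
def S_error : Prop :=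
  ∀ P Ps, IsPade P Ps → ∀ (ω : ℂ), ω^2 + ω + 1 = 0 → ∀ a b : ℕ,
    (1/2 : ℂ) * res (2*(a+b+1) - 1) ((X - 1)^2 * (C (ω^2) * X * cx (Ps a) - cx (P a)) *
          (C ω * X * cx (Ps (a+b+1)) - cx (P (a+b+1))) * (X * cx (Ps b) - cx (P b)))
        (X * (X^2 - X + 1) * (X^2+X+1)^(2*(a+b+1))) = rho P Ps a b

/-- the main result of B2, part 1 -/
def S_main1 : Prop :=
  ∀ Z, IsZ Z → ∀ P Ps, IsPade P Ps → ∀ (ω : ℂ), ω^2 + ω + 1 = 0 → ∀ a b : ℕ, Odd a → Odd b →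
    ∀ r : ℝ, 0 < r → r < 1 →
      (1 / (4 * Real.pi * Complex.I)) * (∮ x in C(1, r), integrand Z ω a b x) =
        Z a (fun _ => 2) * Z b (fun _ => 2) * Z (a+b+1) (fun _ => 2) * rho P Ps a b

/-- reduction to `M_L` -/
def S_red : Prop :=
  ∀ P Ps, IsPade P Ps → ∀ a b : ℕ, Odd a → Odd b →
    rho P Ps a b - rho P Ps b a =
      (((ML P (a+b+1) (P a * Ps b) - ML P (a+b+1) (P b * Ps a)) / 2 : ℚ) : ℂ)

/-- the basic residues -/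
def S_R : Prop :=
  ∀ (m k : ℕ), 0 < m →
    3 * res (m-1) ((X:ℚ[X])^(3*k)) ((X^2+X+1)^m) = Ring.choose ((k:ℚ) - 2/3) (m-1)

/-- `M_L` as an explicit sum -/
def S_MLsum : Prop :=
  ∀ (P : ℕ → ℚ[X]) (L : ℕ), 0 < L → ∀ h : ℚ[X],
    ML P L h = (P L * h).sum fun k c => c * Ring.choose ((k:ℚ) - 2/3) (2*L-1)

end Pool.Agent.H981R2.CD
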