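import Mathlib
import Pool.Agent.H981R2.CD.Defs

set_option autoImplicit false

namespace Pool.Agent.H981R2.CD

open Polynomial

namespace CircAux

/-- `p - s d` is divisible by `(X-1)^(m+1)` (everything shifted by one) -/
lemma decomp (m : ℕ) (p d : ℂ[X]) (hd : d.eval 1 ≠ 0) :
    ∃ s r : ℂ[X], s.natDegree < m + 1 ∧ s.coeff m = res m p d ∧
      p.comp (X + 1) = s * d.comp (X + 1) + X ^ (m + 1) * r := by
  have hts : ∀ q : ℂ[X], (ts q : PowerSeries ℂ) = ((q.comp (X + 1) : ℂ[X]) : PowerSeries ℂ) :=
    fun q => rfl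
  have hcd : PowerSeries.constantCoeff (ts d) ≠ 0 := by
    rw [hts, ← PowerSeries.coeff_zero_eq_constantCoeff_apply, Polynomial.coeff_coe,
      Polynomial.coeff_zero_eq_eval_zero, Polynomial.eval_comp]
    simpa using hd
  have hSd : (ts p * (ts d)⁻¹) * ts d = ts p := by
    rw [mul_assoc, mul_comm (ts d)⁻¹, PowerSeries.mul_inv_cancel _ hcd, mul_one]
  have hdvd : (X : ℂ[X]) ^ (m + 1) ∣
      p.comp (X + 1) - PowerSeries.trunc (m + 1) (ts p * (ts d)⁻¹) * d.comp (X + 1) := by
    rw [Polynomial.X_pow_dvd_iff]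
    intro k hk
    have h1 : PowerSeries.coeff k (ts p) = PowerSeries.coeff k
        ((PowerSeries.trunc (m + 1) (ts p * (ts d)⁻¹) : PowerSeries ℂ) * ts d) := by
      conv_lhs => rw [← hSd]
      rw [PowerSeries.coeff_mul, PowerSeries.coeff_mul]
      refine Finset.sum_congr rfl fun ij hij => ?_
      have h2 : ij.1 < m + 1 := by
        have := Finset.HasAntidiagonal.mem_antidiagonal.mp hij
        omega
      rw [PowerSeries.coeff_coe_trunc_of_lt h2]
    rw [hts p, hts d, Polynomial.coeff_coe, ← Polynomial.coe_mul, Polynomial.coeff_coe] at h1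
    rw [Polynomial.coeff_sub, h1]
    exact sub_self _
  obtain ⟨r, hr⟩ := hdvd
  refine ⟨PowerSeries.trunc (m + 1) (ts p * (ts d)⁻¹), r, PowerSeries.natDegree_trunc_lt _ m, ?_, ?_⟩
  · rw [PowerSeries.coeff_trunc, if_pos (Nat.lt_succ_self m)]
    rfl
  · rw [← hr]; ring

end CircAux

open CircAux in
theorem s_circ : S_circ := by
  intro m p d r hr hd
  have hd1 : d.eval 1 ≠ 0 := hd 1 (Metric.mem_closedBall_self hr.le)
  obtain ⟨s, q, hsdeg, hsm, hdec⟩ := decomp m p d hd1
  have hev : ∀ z : ℂ, p.eval z = s.eval (z - 1) * d.eval z + (z - 1) ^ (m + 1) * q.eval (z - 1) := by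
    intro z
    have := congrArg (Polynomial.eval (z - 1)) hdec
    simpa [Polynomial.eval_comp] using this
  have hne : ∀ z ∈ Metric.sphere (1 : ℂ) r, z - 1 ≠ 0 := by
    intro z hz h
    rw [mem_sphere_iff_norm, h, norm_zero] at hz
    exact hr.ne hz
  have hdz : ∀ z ∈ Metric.closedBall (1 : ℂ) r, d.eval z ≠ 0 := fun z hz => hd z hz
  have hcongr : (∮ z in C(1, r), p.eval z / (d.eval z * (z - 1) ^ (m + 1))) =
      ∮ z in C(1, r), ((∑ j ∈ Finset.range (m + 1), s.coeff j * (z - 1) ^ ((j : ℤ) - m - 1)) +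
        q.eval (z - 1) / d.eval z) := by
    refine circleIntegral.integral_congr hr.le fun z hz => ?_
    have hz1 := hne z hz
    have hz2 := hdz z (Metric.sphere_subset_closedBall hz)
    have e1 : ∀ j : ℕ, s.coeff j * (z - 1) ^ ((j : ℤ) - m - 1) =
        s.coeff j * (z - 1) ^ j / (z - 1) ^ (m + 1) := by
      intro j
      rw [mul_div_assoc]
      congr 1
      rw [eq_div_iff (pow_ne_zero _ hz1), ← zpow_natCast (z - 1) (m + 1), ← zpow_add₀ hz1,
        ← zpow_natCast (z - 1) j]
      congr 1
      push_cast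
      ring
    show p.eval z / (d.eval z * (z - 1) ^ (m + 1)) =
      (∑ j ∈ Finset.range (m + 1), s.coeff j * (z - 1) ^ ((j : ℤ) - m - 1)) +
        q.eval (z - 1) / d.eval z
    rw [Finset.sum_congr rfl fun j _ => e1 j, ← Finset.sum_div,
      ← Polynomial.eval_eq_sum_range' hsdeg, hev z]
    field_simp
  rw [hcongr]
  have hint : ∀ j ∈ Finset.range (m + 1),
      CircleIntegrable (fun z : ℂ => s.coeff j * (z - 1) ^ ((j : ℤ) - m - 1)) 1 r := by
    intro j _
    refine ContinuousOn.circleIntegrable hr.le ?_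
    exact continuousOn_const.mul ((continuousOn_id.sub continuousOn_const).zpow₀ _
      fun z hz => Or.inl (hne z hz))
  have hsum : CircleIntegrable (fun z : ℂ => ∑ j ∈ Finset.range (m + 1),
      s.coeff j * (z - 1) ^ ((j : ℤ) - m - 1)) 1 r := by
    refine ContinuousOn.circleIntegrable hr.le ?_
    refine continuousOn_finsetSum _ fun j _ => ?_
    exact continuousOn_const.mul ((continuousOn_id.sub continuousOn_const).zpow₀ _
      fun z hz => Or.inl (hne z hz))
  have hc2 : ContinuousOn (fun z : ℂ => q.eval (z - 1) / d.eval z) (Metric.closedBall 1 r) := by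
    refine ContinuousOn.div ?_ d.continuous.continuousOn hdz
    exact (q.continuous.comp (continuous_id.sub continuous_const)).continuousOn
  have hi2 : CircleIntegrable (fun z : ℂ => q.eval (z - 1) / d.eval z) 1 r :=
    (hc2.mono Metric.sphere_subset_closedBall).circleIntegrable hr.le
  rw [circleIntegral.integral_add hsum hi2, circleIntegral.integral_fun_sum hint]
  have h0 : (∮ z in C(1, r), q.eval (z - 1) / d.eval z) = 0 := by
    refine Complex.circleIntegral_eq_zero_of_differentiable_on_off_countable hr.le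
      Set.countable_empty hc2 ?_
    intro z hz
    have hz' := hdz z (Metric.ball_subset_closedBall hz.1)
    refine DifferentiableAt.div ?_ d.differentiable.differentiableAt hz'
    exact (q.differentiable.comp (differentiable_id.sub (differentiable_const _))) z
  rw [h0, add_zero, Finset.sum_eq_single m]
  · rw [circleIntegral.integral_const_mul, hsm]
    have e2 : ∀ z : ℂ, (z - 1) ^ ((m : ℤ) - m - 1) = (z - 1)⁻¹ := by
      intro z
      rw [sub_self, zero_sub, zpow_neg_one]
    simp only [e2]
    rw [circleIntegral.integral_sub_center_inv 1 hr.ne']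
    ring
  · intro j _ hj
    rw [circleIntegral.integral_const_mul, circleIntegral.integral_sub_zpow_of_ne, mul_zero]
    intro h
    apply hj
    omega
  · intro h
    exact absurd (Finset.mem_range.mpr (Nat.lt_succ_self m)) h

end Pool.Agent.H981R2.CD
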