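import Pool.Agent.H981R2.CD.Defs

/-!
Project CARDY, block B2: the error terms do not contribute.
-/

namespace Pool.Agent.H981R2.CD

open Polynomial

theorem err_ts_X_sub {K : Type} [Field K] : ts (X - 1 : K[X]) = (PowerSeries.X : PowerSeries K) := by
  simp [ts]

theorem err_ts_C {K : Type} [Field K] (c : K) : ts (C c : K[X]) = PowerSeries.C c := by
  simp [ts]

theorem err_res_add {K : Type} [Field K] (m : ℕ) (p q d : K[X]) :
    res m (p + q) d = res m p d + res m q d := by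
  simp only [res, map_add, add_mul]

theorem err_res_C {K : Type} [Field K] (m : ℕ) (c : K) (p d : K[X]) :
    res m (C c * p) d = c * res m p d := by
  simp only [res, map_mul, err_ts_C, mul_assoc, PowerSeries.coeff_C_mul]

theorem err_res_zero {K : Type} [Field K] (m : ℕ) (p d : K[X]) (h : (X - 1)^(m+1) ∣ p) :
    res m p d = 0 := by
  obtain ⟨q, rfl⟩ := h
  simp only [res, map_mul, map_pow, err_ts_X_sub, mul_assoc]
  rw [PowerSeries.coeff_X_pow_mul']
  rw [if_neg (by omega)]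

theorem err_div {P Ps : ℕ → ℚ[X]} (h : IsPade P Ps) (n : ℕ) :
    (X - 1 : ℂ[X])^(2*n+1) ∣ X * cx (Ps n) - cx (P n) := by
  have h1 := h.div n
  have h2 := (Polynomial.mapRingHom (algebraMap ℚ ℂ)).map_dvd h1
  simpa [cx, Polynomial.map_expand] using h2

theorem s_error : S_error := by
  intro P Ps h ω hω a b
  obtain ⟨ea, hea⟩ := err_div h a
  obtain ⟨eb, heb⟩ := err_div h b
  obtain ⟨eL, heL⟩ := err_div h (a + b + 1)
  have hw : C ω ^ 2 + C ω + 1 = (0 : ℂ[X]) := by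
    rw [← C_pow, ← C_add, ← C_1, ← C_add, hω, C_0]
  have e1 : (X - 1)^2 * (C (ω^2) * X * cx (Ps a) - cx (P a)) *
          (C ω * X * cx (Ps (a+b+1)) - cx (P (a+b+1))) * (X * cx (Ps b) - cx (P b))
      = C 3 * ((X-1)^2 * cx (P a) * cx (P (a+b+1)) * (X * cx (Ps b) - cx (P b)))
        + (X - 1)^2 * (X * cx (Ps b) - cx (P b)) *
          (C ω ^ 2 * (X * cx (Ps a) - cx (P a)) * (C ω * X * cx (Ps (a+b+1)) - cx (P (a+b+1)))
            + C ω * (C ω ^ 2 - 1) * cx (P a) * (X * cx (Ps (a+b+1)) - cx (P (a+b+1)))) := by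
    have h3 : (C 3 : ℂ[X]) = (C ω ^ 2 - 1) * (C ω - 1) := by
      have : (C 3 : ℂ[X]) = 3 := map_ofNat C 3
      rw [this]
      linear_combination (-(C ω) + 2) * hw
    rw [h3, C_pow]
    ring
  rw [e1, err_res_add, err_res_C]
  rw [err_res_zero _ ((X - 1)^2 * (X * cx (Ps b) - cx (P b)) *
          (C ω ^ 2 * (X * cx (Ps a) - cx (P a)) * (C ω * X * cx (Ps (a+b+1)) - cx (P (a+b+1)))
            + C ω * (C ω ^ 2 - 1) * cx (P a) * (X * cx (Ps (a+b+1)) - cx (P (a+b+1)))))]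
  · rw [rho]
    ring
  · have hm : 2 * (a + b + 1) - 1 + 1 = 2 * a + 2 * b + 2 := by omega
    rw [hm, hea, heb, heL]
    refine ⟨(X - 1)^2 * eb * (C ω ^ 2 * ea * (C ω * X * cx (Ps (a+b+1)) - cx (P (a+b+1)))
      + C ω * (C ω ^ 2 - 1) * cx (P a) * ((X - 1)^(2 * b + 2) * eL)), ?_⟩
    ring

end Pool.Agent.H981R2.CD
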