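import Pool.Agent.H981R2.CD.Defs

/-!
# The integrand in terms of the Padé polynomials
-/

set_option autoImplicit false

namespace Pool.Agent.H981R2.CD

open Polynomial

theorem cx_eval_cube (p : ℚ[X]) (x y : ℂ) (h : y ^ 3 = x ^ 3) : (cx p).eval y = (cx p).eval x := by
  unfold cx
  rw [expand_eval, expand_eval, h]

theorem integrand_alg (x ω Z1 Z2 Z3 Za Zb ZL Ea EL Eb : ℂ) (α β L : ℕ)
    (hL' : L = 2 * α + 2 * β + 3) (hω : ω ^ 2 + ω + 1 = 0)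
    (hx : x ≠ 0) (hx3 : x ^ 3 ≠ 1) (hx6 : x ^ 2 - x + 1 ≠ 0)
    (h1 : Z1 * (ω ^ 2 * x - ω * x⁻¹) * (ω ^ 2 * x + ω * x⁻¹ - 2) ^ (2 * α + 1) *
      (x ^ 3) ^ (α + 1) = Za * (ω ^ 2 * x) * Ea)
    (h2 : Z2 * (ω * x - ω ^ 2 * x⁻¹) * (ω * x + ω ^ 2 * x⁻¹ - 2) ^ L *
      (x ^ 3) ^ (α + β + 2) = ZL * (ω * x) * EL)
    (h3 : Z3 * (x - x⁻¹) * (x + x⁻¹ - 2) ^ (2 * β + 1) * (x ^ 3) ^ (β + 1) = Zb * x * Eb) :
    x⁻¹ * (x - x⁻¹) * (x + x⁻¹ + 1) * Z1 * Z2 * Z3 /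
      ((x + x⁻¹ - 2) ^ (2 * α + 1) * (2 - ω ^ 2 * x - ω * x⁻¹) ^ (2 * β + 1 + 1)) =
    Za * Zb * ZL * (((x - 1) ^ 2 * Ea * EL * Eb) /
      ((x * (x ^ 2 - x + 1) * (x ^ 2 + x + 1) ^ (2 * L)) *
        (x - 1) ^ (2 * L))) := by
  subst hL'
  have hω3 : ω ^ 3 = 1 := by linear_combination (ω - 1) * hω
  have hx1 : x - 1 ≠ 0 := by
    intro h
    apply hx3
    rw [sub_eq_zero.1 h]
    norm_num
  have hq : x ^ 2 + x + 1 ≠ 0 := by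
    intro h
    apply hx3
    linear_combination (x - 1) * h
  have hinv : x * x⁻¹ = 1 := mul_inv_cancel₀ hx
  have hneg : (2 - ω ^ 2 * x - ω * x⁻¹) ^ (2 * β + 1 + 1) =
      (ω ^ 2 * x + ω * x⁻¹ - 2) ^ (2 * β + 2) := by
    rw [show (2 - ω ^ 2 * x - ω * x⁻¹) = -(ω ^ 2 * x + ω * x⁻¹ - 2) by ring]
    rw [show 2 * β + 1 + 1 = 2 * (β + 1) by ring, pow_mul, neg_sq, ← pow_mul]
  rw [hneg]
  have hu : (ω ^ 2 * x + ω * x⁻¹ - 2) * (ω * x + ω ^ 2 * x⁻¹ - 2) =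
      x ^ 2 + x⁻¹ ^ 2 - x * x⁻¹ + 2 * (x + x⁻¹) + 4 := by
    linear_combination ((ω - 1) * (x ^ 2 + x⁻¹ ^ 2) + (ω ^ 2 - ω + 1) * x * x⁻¹ -
      2 * (x + x⁻¹)) * hω
  have e1 : (ω ^ 2 * x + ω * x⁻¹ - 2) * (ω * x + ω ^ 2 * x⁻¹ - 2) * (x + x⁻¹ - 2) * x ^ 3 =
      (x ^ 3 - 1) ^ 2 := by
    rw [hu]
    linear_combination ((x * x⁻¹) ^ 2 + x * x⁻¹ + 1 + 6 * x ^ 3) * hinv
  have e2 : (ω ^ 2 * x - ω * x⁻¹) * (ω * x - ω ^ 2 * x⁻¹) * x ^ 2 =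
      (x ^ 2 - x + 1) * (x ^ 2 + x + 1) := by
    have : (ω ^ 2 * x - ω * x⁻¹) * (ω * x - ω ^ 2 * x⁻¹) = x ^ 2 + x⁻¹ ^ 2 + x * x⁻¹ := by
      linear_combination ((ω - 1) * (x ^ 2 + x⁻¹ ^ 2) - (ω ^ 2 - ω + 1) * x * x⁻¹) * hω
    rw [this]
    linear_combination (x * x⁻¹ + 1 + x ^ 2) * hinv
  have e3 : (x + x⁻¹ - 2) * x = (x - 1) ^ 2 := by linear_combination hinv
  have e4 : (x + x⁻¹ + 1) * x = x ^ 2 + x + 1 := by linear_combination hinv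
  have hc0 : x + x⁻¹ - 2 ≠ 0 := by
    intro h
    rw [h, zero_mul] at e3
    exact hx1 (pow_eq_zero_iff (two_ne_zero) |>.1 e3.symm)
  have hu0 : ω ^ 2 * x + ω * x⁻¹ - 2 ≠ 0 := by
    intro h
    rw [h, zero_mul, zero_mul, zero_mul] at e1
    exact hx3 (sub_eq_zero.1 (pow_eq_zero_iff (two_ne_zero) |>.1 e1.symm))
  generalize ω ^ 2 * x + ω * x⁻¹ - 2 = u at *
  generalize ω * x + ω ^ 2 * x⁻¹ - 2 = v at *
  generalize x + x⁻¹ - 2 = c at *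
  generalize ω ^ 2 * x - ω * x⁻¹ = du at *
  generalize ω * x - ω ^ 2 * x⁻¹ = dv at *
  generalize x - x⁻¹ = dw at *
  have hprod : (Z1 * Z2 * Z3) * (du * dv * dw) *
      (u ^ (2 * α + 1) * v ^ (2 * α + 2 * β + 3) * c ^ (2 * β + 1)) *
      (x ^ 3) ^ (2 * α + 2 * β + 4) = (Za * Zb * ZL) * (Ea * EL * Eb) * (ω ^ 3 * x ^ 3) := by
    calc _ = (Z1 * du * u ^ (2 * α + 1) * (x ^ 3) ^ (α + 1)) *
        (Z2 * dv * v ^ (2 * α + 2 * β + 3) * (x ^ 3) ^ (α + β + 2)) *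
        (Z3 * dw * c ^ (2 * β + 1) * (x ^ 3) ^ (β + 1)) := by ring
      _ = _ := by
        rw [h1, h2, h3]
        ring
  rw [hω3, one_mul] at hprod
  have hx30 : x ^ 3 ≠ 0 := pow_ne_zero 3 hx
  have hd1 : c ^ (2 * α + 1) * u ^ (2 * β + 2) ≠ 0 :=
    mul_ne_zero (pow_ne_zero _ hc0) (pow_ne_zero _ hu0)
  have hd2 : (x * (x ^ 2 - x + 1) * (x ^ 2 + x + 1) ^ (2 * (2 * α + 2 * β + 3))) *
        (x - 1) ^ (2 * (2 * α + 2 * β + 3)) ≠ 0 :=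
    mul_ne_zero (mul_ne_zero (mul_ne_zero hx hx6) (pow_ne_zero _ hq)) (pow_ne_zero _ hx1)
  rw [← mul_div_assoc, div_eq_div_iff hd1 hd2]
  apply mul_right_cancel₀ hx30
  have hL : (x ^ 2 + x + 1) ^ (2 * (2 * α + 2 * β + 3)) * (x - 1) ^ (2 * (2 * α + 2 * β + 3)) =
      (u * v * c * x ^ 3) ^ (2 * α + 2 * β + 3) := by
    rw [e1, ← mul_pow, ← pow_mul]
    congr 1
    ring
  calc x⁻¹ * dw * (x + x⁻¹ + 1) * Z1 * Z2 * Z3 *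
        (x * (x ^ 2 - x + 1) * (x ^ 2 + x + 1) ^ (2 * (2 * α + 2 * β + 3)) *
          (x - 1) ^ (2 * (2 * α + 2 * β + 3))) * x ^ 3
      = (x * x⁻¹) * dw * ((x + x⁻¹ + 1) * x) * (Z1 * Z2 * Z3) * (x ^ 2 - x + 1) * x ^ 2 *
        ((x ^ 2 + x + 1) ^ (2 * (2 * α + 2 * β + 3)) *
          (x - 1) ^ (2 * (2 * α + 2 * β + 3))) := by ring
    _ = dw * ((x ^ 2 - x + 1) * (x ^ 2 + x + 1)) * (Z1 * Z2 * Z3) * x ^ 2 *
        (u * v * c * x ^ 3) ^ (2 * α + 2 * β + 3) := by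
        rw [hinv, e4, hL]
        ring
    _ = dw * (du * dv * x ^ 2) * (Z1 * Z2 * Z3) * x ^ 2 *
        (u * v * c * x ^ 3) ^ (2 * α + 2 * β + 3) := by rw [e2]
    _ = ((Z1 * Z2 * Z3) * (du * dv * dw) *
      (u ^ (2 * α + 1) * v ^ (2 * α + 2 * β + 3) * c ^ (2 * β + 1)) *
      (x ^ 3) ^ (2 * α + 2 * β + 4)) * (c * x) * (c ^ (2 * α + 1) * u ^ (2 * β + 2)) := by
        ring
    _ = Za * Zb * ZL * ((x - 1) ^ 2 * Ea * EL * Eb) * (c ^ (2 * α + 1) * u ^ (2 * β + 2)) *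
        x ^ 3 := by
        rw [hprod, e3]
        ring

theorem s_integrand (h : S_fN) : S_integrand := by
  intro Z hZ P Ps hP ω hω a b ha hb x hx hx3 hx6 hx2
  obtain ⟨α, rfl⟩ := ha
  obtain ⟨β, rfl⟩ := hb
  have hω3 : ω ^ 3 = 1 := by linear_combination (ω - 1) * hω
  have hω0 : ω ≠ 0 := by
    rintro rfl
    norm_num at hω
  have i1 : (ω ^ 2 * x)⁻¹ = ω * x⁻¹ := by
    apply inv_eq_of_mul_eq_one_right
    calc ω ^ 2 * x * (ω * x⁻¹) = ω ^ 3 * (x * x⁻¹) := by ring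
      _ = 1 := by rw [hω3, mul_inv_cancel₀ hx, one_mul]
  have i2 : (ω * x)⁻¹ = ω ^ 2 * x⁻¹ := by
    apply inv_eq_of_mul_eq_one_right
    calc ω * x * (ω ^ 2 * x⁻¹) = ω ^ 3 * (x * x⁻¹) := by ring
      _ = 1 := by rw [hω3, mul_inv_cancel₀ hx, one_mul]
  have c1 : (ω ^ 2 * x) ^ 3 = x ^ 3 := by linear_combination (ω ^ 3 + 1) * x ^ 3 * hω3
  have c2 : (ω * x) ^ 3 = x ^ 3 := by linear_combination x ^ 3 * hω3
  have h1 := h Z hZ P Ps hP (2 * α + 1) ⟨α, rfl⟩ (ω ^ 2 * x) (mul_ne_zero (pow_ne_zero 2 hω0) hx)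
  have h2 := h Z hZ P Ps hP (2 * α + 1 + (2 * β + 1) + 1) ⟨α + β + 1, by ring⟩ (ω * x)
    (mul_ne_zero hω0 hx)
  have h3 := h Z hZ P Ps hP (2 * β + 1) ⟨β, rfl⟩ x hx
  rw [i1, cx_eval_cube _ _ _ c1, cx_eval_cube _ _ _ c1, pow_mul, c1,
    show (2 * α + 1 + 1) / 2 = α + 1 by omega] at h1
  rw [i2, cx_eval_cube _ _ _ c2, cx_eval_cube _ _ _ c2, pow_mul, c2,
    show (2 * α + 1 + (2 * β + 1) + 1 + 1) / 2 = α + β + 2 by omega] at h2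
  rw [pow_mul, show (2 * β + 1 + 1) / 2 = β + 1 by omega] at h3
  have key := integrand_alg x ω _ _ _ _ _ _ _ _ _ α β _ (by ring) hω hx hx3 hx6 h1 h2 h3
  unfold integrand
  rw [key]
  simp only [eval_mul, eval_sub, eval_pow, eval_add, eval_C, eval_X, eval_one]

end Pool.Agent.H981R2.CD
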