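import Mathlib
import Pool.Agent.H981R2.CD.Defs

namespace Pool.Agent.H981R2.CD

open Polynomial

theorem res_sum_left {K : Type} [Field K] (m : ℕ) (d : K[X]) {ι : Type*} (s : Finset ι)
    (f : ι → K[X]) : res m (∑ i ∈ s, f i) d = ∑ i ∈ s, res m (f i) d := by
  unfold res
  rw [map_sum, Finset.sum_mul, map_sum]

theorem ts_C {K : Type} [Field K] (c : K) : ts (C c) = PowerSeries.C c := by
  simp [ts]

theorem res_C_mul {K : Type} [Field K] (m : ℕ) (d p : K[X]) (c : K) :
    res m (C c * p) d = c * res m p d := by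
  unfold res
  rw [RingHom.map_mul, ts_C, mul_assoc, PowerSeries.coeff_C_mul]

theorem s_MLsum (h0 : S_R) : S_MLsum := by
  intro P L hL h
  unfold ML
  set g := P L * h with hg
  have h1 : expand ℚ 3 g = ∑ k ∈ g.support, C (g.coeff k) * X^(3*k) := by
    conv_lhs => rw [g.as_sum_support_C_mul_X_pow]
    rw [map_sum]
    refine Finset.sum_congr rfl fun k _ => ?_
    rw [map_mul, expand_C, map_pow, expand_X, ← pow_mul]
  rw [h1, res_sum_left, Finset.mul_sum, Polynomial.sum_def]
  refine Finset.sum_congr rfl fun k _ => ?_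
  rw [res_C_mul]
  have h2 := h0 (2*L) k (by omega)
  rw [← h2]; ring

end Pool.Agent.H981R2.CD
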