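import Pool.Agent.H981R2.CD.Defs

/-! B2, part 1: the circle integral as a formal residue. -/

namespace Pool.Agent.H981R2.CD

open Polynomial

theorem main1_re (z : ℂ) (r : ℝ) (hr : r < 1) (hz : ‖z - 1‖ ≤ r) : 0 < z.re := by
  have h1 : |(z - 1).re| ≤ r := (Complex.abs_re_le_norm _).trans hz
  rw [Complex.sub_re, Complex.one_re] at h1
  have := (abs_le.mp h1).1
  linarith

theorem main1_q1 (z : ℂ) (r : ℝ) (hr : r < 1) (hz : ‖z - 1‖ ≤ r) : z ^ 2 - z + 1 ≠ 0 := by
  intro h
  have h1 : (z - 1) ^ 3 = 1 := by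
    linear_combination (z - 2) * h
  have h2 : ‖z - 1‖ ^ 3 = 1 := by
    rw [← norm_pow, h1, norm_one]
  have h3 : ‖z - 1‖ ^ 3 < 1 := pow_lt_one₀ (norm_nonneg _) (by linarith) (by norm_num)
  linarith

theorem main1_q2 (z : ℂ) (r : ℝ) (hr : r < 1) (hz : ‖z - 1‖ ≤ r) : z ^ 2 + z + 1 ≠ 0 := by
  intro h
  have h0 := main1_re z r hr hz
  have hre := congrArg Complex.re h
  have him := congrArg Complex.im h
  simp only [pow_two, Complex.add_re, Complex.add_im, Complex.mul_re, Complex.mul_im,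
    Complex.one_re, Complex.one_im, Complex.zero_re, Complex.zero_im] at hre him
  have h1 : z.im * (2 * z.re + 1) = 0 := by linarith
  rcases mul_eq_zero.mp h1 with h2 | h2
  · rw [h2] at hre
    nlinarith
  · linarith

theorem main1_z0 (z : ℂ) (r : ℝ) (hr : r < 1) (hz : ‖z - 1‖ ≤ r) : z ≠ 0 := by
  intro h
  have h0 := main1_re z r hr hz
  rw [h] at h0
  simp at h0

theorem s_main1 (h1 : S_circ) (h2 : S_integrand) (h3 : S_error) : S_main1 := by
  intro Z hZ P Ps hP ω hω a b ha hb r hr0 hr1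
  have hcong : (∮ x in C(1, r), integrand Z ω a b x) =
      ∮ x in C(1, r), (Z a (fun _ => 2) * Z b (fun _ => 2) * Z (a+b+1) (fun _ => 2)) *
        (((X - 1)^2 * (C (ω^2) * X * cx (Ps a) - cx (P a)) *
          (C ω * X * cx (Ps (a+b+1)) - cx (P (a+b+1))) * (X * cx (Ps b) - cx (P b))).eval x /
        ((X * (X^2 - X + 1) * (X^2+X+1)^(2*(a+b+1))).eval x * (x - 1)^(2*(a+b+1)))) := by
    refine circleIntegral.integral_congr hr0.le (fun x hx => ?_)
    rw [mem_sphere_iff_norm] at hx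
    have hx' : ‖x - 1‖ ≤ r := hx.le
    have hx1 : x ≠ 1 := by
      intro h
      rw [h, sub_self, norm_zero] at hx
      linarith
    have hre := main1_re x r hr1 hx'
    refine h2 Z hZ P Ps hP ω hω a b ha hb x (main1_z0 x r hr1 hx') ?_
      (main1_q1 x r hr1 hx') ?_
    · intro h
      have h4 : (x - 1) * (x ^ 2 + x + 1) = 0 := by linear_combination h
      rcases mul_eq_zero.mp h4 with h5 | h5
      · exact hx1 (sub_eq_zero.mp h5)
      · exact main1_q2 x r hr1 hx' h5
    · intro h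
      have h4 : (x - 1) * (x + 1) = 0 := by linear_combination h
      rcases mul_eq_zero.mp h4 with h5 | h5
      · exact hx1 (sub_eq_zero.mp h5)
      · have h6 : x = -1 := by linear_combination h5
        rw [h6] at hre
        simp at hre
        linarith
  rw [hcong, circleIntegral.integral_const_mul]
  have hL : 2*(a+b+1) - 1 + 1 = 2*(a+b+1) := by omega
  have hc := h1 (2*(a+b+1) - 1) ((X - 1)^2 * (C (ω^2) * X * cx (Ps a) - cx (P a)) *
          (C ω * X * cx (Ps (a+b+1)) - cx (P (a+b+1))) * (X * cx (Ps b) - cx (P b)))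
        (X * (X^2 - X + 1) * (X^2+X+1)^(2*(a+b+1))) r hr0 (by
      intro z hz
      rw [mem_closedBall_iff_norm] at hz
      simp only [eval_mul, eval_pow, eval_add, eval_sub, eval_X, eval_one]
      exact mul_ne_zero (mul_ne_zero (main1_z0 z r hr1 hz) (main1_q1 z r hr1 hz))
        (pow_ne_zero _ (main1_q2 z r hr1 hz)))
  rw [hL] at hc
  rw [hc, ← h3 P Ps hP ω hω a b]
  have hpi : (Real.pi : ℂ) ≠ 0 := by
    exact_mod_cast Real.pi_ne_zero
  have hI : Complex.I ≠ 0 := Complex.I_ne_zero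
  field_simp
  ring

end Pool.Agent.H981R2.CD
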