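import Pool.Agent.H981R2.CD.Defs

/-!
The basic residues: `3 Res_{X=1} X^(3k) (X^3-1)^(-m) dX = choose (k - 2/3) (m - 1)`.
-/

set_option autoImplicit false

namespace Pool.Agent.H981R2.CD

open Polynomial

namespace RR

/-- the local parameter form of `X^2 + X + 1` at `X = 1` -/
noncomputable def U : PowerSeries ℚ := 3 + 3 * PowerSeries.X + PowerSeries.X ^ 2

/-- its inverse -/
noncomputable def V : PowerSeries ℚ := U⁻¹

/-- the variable `X = 1 + t` -/
noncomputable def Y : PowerSeries ℚ := 1 + PowerSeries.X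

theorem U_const : PowerSeries.constantCoeff U = 3 := by
  unfold U
  have h : (3 : PowerSeries ℚ) = PowerSeries.C 3 := (map_ofNat PowerSeries.C 3).symm
  rw [h]
  simp

theorem UV : U * V = 1 := by
  unfold V
  exact PowerSeries.mul_inv_cancel _ (by rw [U_const]; norm_num)

theorem cube : Y ^ 3 - 1 = PowerSeries.X * U := by
  unfold Y U
  ring

theorem ts_X : ts (X : ℚ[X]) = Y := by
  unfold ts Y
  simp [add_comm]

theorem ts_q : ts (X ^ 2 + X + 1 : ℚ[X]) = U := by
  rw [map_add, map_add, map_pow, map_one, ts_X]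
  unfold Y U
  ring

/-- the residue with shifted index -/
noncomputable def R (n k : ℕ) : ℚ := 3 * PowerSeries.coeff n (Y ^ (3 * k) * V ^ (n + 1))

theorem R_eq (n k : ℕ) :
    3 * res n ((X:ℚ[X])^(3*k)) ((X^2+X+1)^(n+1)) = R n k := by
  unfold res R
  rw [map_pow, map_pow, ts_X, ts_q]
  have h : (U ^ (n + 1))⁻¹ = V ^ (n + 1) := by
    symm
    rw [PowerSeries.eq_inv_iff_mul_eq_one (by rw [map_pow, U_const]; positivity), ← mul_pow,
      mul_comm V U, UV, one_pow]
  rw [h]

theorem R_step (n k : ℕ) : R (n + 1) (k + 1) - R (n + 1) k = R n k := by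
  unfold R
  rw [← mul_sub, ← map_sub]
  have h : Y ^ (3 * (k + 1)) * V ^ (n + 1 + 1) - Y ^ (3 * k) * V ^ (n + 1 + 1) =
      PowerSeries.X * (Y ^ (3 * k) * V ^ (n + 1)) := by
    have h1 : Y ^ (3 * (k + 1)) * V ^ (n + 1 + 1) - Y ^ (3 * k) * V ^ (n + 1 + 1) =
        Y ^ (3 * k) * V ^ (n + 1 + 1) * (Y ^ 3 - 1) := by ring
    rw [h1, cube]
    have h2 : Y ^ (3 * k) * V ^ (n + 1 + 1) * (PowerSeries.X * U) =
        PowerSeries.X * (Y ^ (3 * k) * V ^ (n + 1)) * (U * V) := by ring
    rw [h2, UV, mul_one]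
  rw [h, PowerSeries.coeff_succ_X_mul]

theorem dnum (n : ℕ) : PowerSeries.derivative ℚ ((n : ℕ) : PowerSeries ℚ) = 0 :=
  Derivation.map_natCast _ n

theorem dY : PowerSeries.derivative ℚ Y = 1 := by
  unfold Y
  rw [map_add, Derivation.map_one_eq_zero, PowerSeries.derivative_X, zero_add]

theorem dXU : PowerSeries.derivative ℚ (PowerSeries.X * U) = 3 * Y ^ 2 := by
  rw [← cube, map_sub, Derivation.map_one_eq_zero, sub_zero, Derivation.leibniz_pow, dY]
  simp

theorem dXU' : PowerSeries.X * PowerSeries.derivative ℚ U + U = 3 * Y ^ 2 := by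
  rw [← dXU, Derivation.leibniz, PowerSeries.derivative_X]
  simp

theorem dV : PowerSeries.derivative ℚ V = - (V ^ 2 * PowerSeries.derivative ℚ U) := by
  unfold V
  rw [PowerSeries.derivative_inv']
  ring

theorem key (m : ℕ) : PowerSeries.X * PowerSeries.derivative ℚ (Y * V ^ m) -
    (m : PowerSeries ℚ) * (Y * V ^ m) =
    PowerSeries.X * V ^ m - (3 * m : PowerSeries ℚ) * (Y ^ 3 * V ^ (m + 1)) := by
  have h1 : PowerSeries.derivative ℚ (V ^ m) =
      - ((m : PowerSeries ℚ) * V ^ (m + 1) * PowerSeries.derivative ℚ U) := by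
    rw [Derivation.leibniz_pow, dV]
    rcases m with _ | m
    · simp
    · rw [Nat.add_sub_cancel]
      simp only [smul_eq_mul, nsmul_eq_mul]
      ring
  rw [Derivation.leibniz, dY, h1]
  simp only [smul_eq_mul]
  have h2 : V ^ m = V ^ (m + 1) * U := by
    rw [pow_succ, mul_assoc, mul_comm V U, UV, mul_one]
  have h3 : PowerSeries.X * (Y * -((m : PowerSeries ℚ) * V ^ (m + 1) *
        PowerSeries.derivative ℚ U) + V ^ m * 1) - (m : PowerSeries ℚ) * (Y * V ^ m) =
      PowerSeries.X * V ^ m - (m : PowerSeries ℚ) * Y * V ^ (m + 1) *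
        (PowerSeries.X * PowerSeries.derivative ℚ U + U) +
        (m : PowerSeries ℚ) * Y * (V ^ (m + 1) * U - V ^ m) := by ring
  rw [h3, dXU', ← h2]
  ring

theorem R_zero (n : ℕ) : R n 0 = 3 * (n + 1) * R (n + 1) 1 := by
  have h := congrArg (PowerSeries.coeff (n + 1)) (key (n + 1))
  rw [map_sub, map_sub, PowerSeries.coeff_succ_X_mul, PowerSeries.coeff_succ_X_mul,
    PowerSeries.coeff_derivative] at h
  have h1 : PowerSeries.coeff (n + 1) (((n + 1 : ℕ) : PowerSeries ℚ) * (Y * V ^ (n + 1))) =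
      ((n : ℚ) + 1) * PowerSeries.coeff (n + 1) (Y * V ^ (n + 1)) := by
    rw [← nsmul_eq_mul, map_nsmul, nsmul_eq_mul]
    push_cast
    ring
  have h2 : PowerSeries.coeff (n + 1) ((3 * ((n + 1 : ℕ) : PowerSeries ℚ)) *
      (Y ^ 3 * V ^ (n + 1 + 1))) =
      3 * ((n : ℚ) + 1) * PowerSeries.coeff (n + 1) (Y ^ 3 * V ^ (n + 1 + 1)) := by
    have h3 : (3 * ((n + 1 : ℕ) : PowerSeries ℚ)) * (Y ^ 3 * V ^ (n + 1 + 1)) =
        (3 * (n + 1)) • (Y ^ 3 * V ^ (n + 1 + 1)) := by
      rw [nsmul_eq_mul]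
      push_cast
      ring
    rw [h3, map_nsmul, nsmul_eq_mul]
    push_cast
    ring
  rw [h1, h2] at h
  unfold R
  rw [mul_zero, pow_zero, one_mul, mul_one]
  linarith

theorem choose_succ (r : ℚ) (n : ℕ) :
    ((n : ℚ) + 1) * Ring.choose r (n + 1) = Ring.choose r n * (r - n) := by
  have h := Ring.choose_smul_choose r (Nat.le_succ n)
  rw [Nat.succ_eq_add_one, Nat.choose_succ_self_right, Nat.add_sub_cancel_left,
    Ring.choose_one_right, nsmul_eq_mul] at h
  push_cast at h
  exact h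

theorem R_choose : ∀ n k : ℕ, R n k = Ring.choose ((k : ℚ) - 2 / 3) n := by
  intro n
  induction n with
  | zero =>
    intro k
    rw [Ring.choose_zero_right]
    unfold R
    rw [PowerSeries.coeff_zero_eq_constantCoeff_apply, map_mul, map_pow, map_pow]
    have h1 : PowerSeries.constantCoeff Y = (1 : ℚ) := by
      unfold Y
      simp
    have h2 : PowerSeries.constantCoeff V = (3 : ℚ)⁻¹ := by
      unfold V
      rw [PowerSeries.constantCoeff_inv, U_const]
    rw [h1, h2]
    norm_num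
  | succ n ih =>
    intro k
    induction k with
    | zero =>
      have h1 := R_zero n
      have h2 := R_step n 0
      rw [zero_add] at h2
      have h3 := choose_succ ((0 : ℕ) - 2 / 3) n
      rw [ih 0] at h1 h2
      have hn : (0 : ℚ) < (n : ℚ) + 1 := by positivity
      set c := Ring.choose (((0 : ℕ) : ℚ) - 2 / 3) n
      set c' := Ring.choose (((0 : ℕ) : ℚ) - 2 / 3) (n + 1)
      have h4 : ((n : ℚ) + 1) * (R (n + 1) 0 - c') = 0 := by
        push_cast at h3
        have h5 : R (n + 1) 1 = R (n + 1) 0 + c := by linarith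
        rw [h5] at h1
        linarith
      rcases mul_eq_zero.1 h4 with h5 | h5
      · exact absurd h5 hn.ne'
      · linarith
    | succ k ihk =>
      have h1 := R_step n k
      rw [ih k, ihk] at h1
      have h2 : (((k + 1 : ℕ) : ℚ) - 2 / 3) = ((k : ℚ) - 2 / 3) + 1 := by
        push_cast
        ring
      rw [h2, Ring.choose_succ_succ]
      linarith

end RR

theorem s_R : S_R := by
  intro m k hm
  obtain ⟨n, rfl⟩ : ∃ n, m = n + 1 := ⟨m - 1, by omega⟩
  rw [Nat.add_sub_cancel, RR.R_eq, RR.R_choose]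

end Pool.Agent.H981R2.CD
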