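import Pool.Agent.H981R2.CD.Defs

/-!
Project CARDY, block B2: reduction to `M_L`.
-/

namespace Pool.Agent.H981R2.CD

open Polynomial

section red

variable {K : Type} [Field K]

theorem red_ts_apply (p : K[X]) : ts p = ((p.comp (X + 1) : K[X]) : PowerSeries K) := rfl

theorem red_ts_X : ts (X : K[X]) = PowerSeries.X + 1 := by
  rw [red_ts_apply]
  simp

theorem red_ts_C (c : K) : ts (C c : K[X]) = PowerSeries.C c := by
  rw [red_ts_apply]
  simp

theorem red_cc (u : K[X]) : PowerSeries.constantCoeff (ts u) = u.eval 1 := by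
  rw [red_ts_apply, ← PowerSeries.coeff_zero_eq_constantCoeff_apply, Polynomial.coeff_coe,
    Polynomial.coeff_zero_eq_eval_zero, Polynomial.eval_comp]
  simp

theorem red_res_add (m : ℕ) (p q d : K[X]) : res m (p + q) d = res m p d + res m q d := by
  unfold res
  rw [map_add, add_mul, map_add]

theorem red_res_sub (m : ℕ) (p q d : K[X]) : res m (p - q) d = res m p d - res m q d := by
  unfold res
  rw [map_sub, sub_mul, map_sub]

theorem red_res_cancel (m : ℕ) (u p d : K[X]) (hu : u.eval 1 ≠ 0) :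
    res m (u * p) (u * d) = res m p d := by
  unfold res
  have h1 : ts u * (ts u)⁻¹ = 1 := PowerSeries.mul_inv_cancel _ (by rwa [red_cc])
  have h2 : ts (u * p) = ts u * ts p := map_mul ts u p
  have h3 : ts (u * d) = ts u * ts d := map_mul ts u d
  rw [h2, h3, PowerSeries.mul_inv_rev]
  congr 1
  calc ts u * ts p * ((ts d)⁻¹ * (ts u)⁻¹) = ts p * (ts d)⁻¹ * (ts u * (ts u)⁻¹) := by ring
    _ = ts p * (ts d)⁻¹ := by rw [h1, mul_one]

theorem red_inv_pow (V : PowerSeries K) (hV : PowerSeries.constantCoeff V ≠ 0) (n : ℕ) :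
    (V ^ n)⁻¹ = V⁻¹ ^ n := by
  symm
  rw [PowerSeries.eq_inv_iff_mul_eq_one (by rw [map_pow]; exact pow_ne_zero _ hV), ← mul_pow,
    mul_comm V⁻¹, PowerSeries.mul_inv_cancel _ hV, one_pow]

theorem red_V : ts (X ^ 2 + X + 1 : K[X]) = PowerSeries.X ^ 2 + 3 * PowerSeries.X + 3 := by
  rw [map_add, map_add, map_pow, map_one, red_ts_X]
  ring

theorem red_key [CharZero K] (k : ℕ) (hk : 1 ≤ k) :
    PowerSeries.coeff k (ts (X ^ 2 : K[X]) * ((ts (X ^ 2 + X + 1 : K[X]))⁻¹) ^ (k + 1)) = 0 := by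
  set V : PowerSeries K := ts (X ^ 2 + X + 1 : K[X]) with hV
  have hVc : PowerSeries.constantCoeff V ≠ 0 := by
    rw [hV, red_cc]
    simp only [eval_add, eval_pow, eval_X, eval_one, one_pow]
    norm_num
  have hVG : V * V⁻¹ = 1 := PowerSeries.mul_inv_cancel _ hVc
  have hC3 : (PowerSeries.C (3 : K)) = 3 := map_ofNat _ 3
  have hVe : V = PowerSeries.X ^ 2 + (3 : K) • PowerSeries.X + PowerSeries.C 3 := by
    rw [hV, red_V, PowerSeries.smul_eq_C_mul, hC3]
  have hDV : PowerSeries.derivative K V = 2 * PowerSeries.X + 3 := by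
    rw [hVe, map_add, map_add, Derivation.leibniz_pow, Derivation.map_smul,
      PowerSeries.derivative_X, PowerSeries.derivative_C, PowerSeries.smul_eq_C_mul, hC3]
    simp
  obtain ⟨j, rfl⟩ : ∃ j, k = j + 1 := ⟨k - 1, by omega⟩
  have hD : PowerSeries.derivative K (V⁻¹ ^ (j + 1)) =
      -(((j : PowerSeries K) + 1) * (V⁻¹ ^ (j + 2) * (2 * PowerSeries.X + 3))) := by
    rw [Derivation.leibniz_pow, PowerSeries.derivative_inv', Nat.add_sub_cancel, hDV, smul_eq_mul,
      nsmul_eq_mul]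
    push_cast
    ring
  have hmain : PowerSeries.X * PowerSeries.derivative K (V⁻¹ ^ (j + 1)) -
      ((j : PowerSeries K) + 1) * V⁻¹ ^ (j + 1) =
      -(3 * ((j : PowerSeries K) + 1)) * (ts (X ^ 2 : K[X]) * V⁻¹ ^ (j + 2)) := by
    have h1 : V⁻¹ ^ (j + 1) = V⁻¹ ^ (j + 2) * V := by
      rw [pow_succ V⁻¹ (j + 1), mul_assoc, mul_comm V⁻¹, hVG, mul_one]
    have h2 : ts (X ^ 2 : K[X]) = (PowerSeries.X + 1) ^ 2 := by rw [map_pow, red_ts_X]
    have h3 : V = PowerSeries.X ^ 2 + 3 * PowerSeries.X + 3 := by rw [hV, red_V]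
    rw [hD, h2]
    calc PowerSeries.X * -(((j : PowerSeries K) + 1) * (V⁻¹ ^ (j + 2) *
          (2 * PowerSeries.X + 3))) - ((j : PowerSeries K) + 1) * V⁻¹ ^ (j + 1)
        = PowerSeries.X * -(((j : PowerSeries K) + 1) * (V⁻¹ ^ (j + 2) *
          (2 * PowerSeries.X + 3))) - ((j : PowerSeries K) + 1) * (V⁻¹ ^ (j + 2) * V) := by
          rw [h1]
      _ = PowerSeries.X * -(((j : PowerSeries K) + 1) * (V⁻¹ ^ (j + 2) *
          (2 * PowerSeries.X + 3))) - ((j : PowerSeries K) + 1) * (V⁻¹ ^ (j + 2) *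
          (PowerSeries.X ^ 2 + 3 * PowerSeries.X + 3)) := by
          congr 3
      _ = _ := by ring
  have hc := congrArg (PowerSeries.coeff (j + 1)) hmain
  have e1 : ((j : PowerSeries K) + 1) = PowerSeries.C ((j : K) + 1) := by
    rw [map_add, map_one, map_natCast]
  have e2 : -(3 * ((j : PowerSeries K) + 1)) = PowerSeries.C (-(3 * ((j : K) + 1))) := by
    rw [map_neg, map_mul, map_add, map_one, map_natCast, map_ofNat]
  rw [map_sub, PowerSeries.coeff_succ_X_mul, PowerSeries.coeff_derivative, e2, e1,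
    PowerSeries.coeff_C_mul, PowerSeries.coeff_C_mul] at hc
  have h4 : -(3 * ((j : K) + 1)) ≠ 0 := by
    rw [neg_ne_zero]
    refine mul_ne_zero (by norm_num) ?_
    exact_mod_cast Nat.succ_ne_zero j
  have h5 : -(3 * ((j : K) + 1)) * PowerSeries.coeff (j + 1)
      (ts (X ^ 2 : K[X]) * V⁻¹ ^ (j + 2)) = 0 := by
    rw [← hc]
    ring
  exact (mul_eq_zero.1 h5).resolve_left h4

theorem red_zero [CharZero K] (L : ℕ) (g : K[X]) (hg : g.natDegree + 2 ≤ 2 * L) :
    res (2 * L - 1) (X ^ 2 * expand K 3 g) ((X ^ 2 + X + 1) ^ (2 * L)) = 0 := by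
  have hVc : PowerSeries.constantCoeff (ts (X ^ 2 + X + 1 : K[X])) ≠ 0 := by
    rw [red_cc]
    simp only [eval_add, eval_pow, eval_X, eval_one, one_pow]
    norm_num
  have hVG := PowerSeries.mul_inv_cancel _ hVc
  have h0 : expand K 3 g = ∑ i ∈ (taylor 1 g).support,
      C ((taylor 1 g).coeff i) * (X ^ 3 - 1) ^ i := by
    conv_lhs => rw [← sum_taylor_eq g 1]
    rw [Polynomial.sum_def, map_sum]
    refine Finset.sum_congr rfl fun i _ => ?_
    rw [map_mul, map_pow, map_sub, expand_X, expand_C, expand_C, C_1]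
  unfold res
  rw [h0, Finset.mul_sum, map_sum, Finset.sum_mul, map_sum]
  refine Finset.sum_eq_zero fun i hi => ?_
  have hi' : i ≤ g.natDegree := by
    rw [← natDegree_taylor g 1]
    exact le_natDegree_of_mem_supp i hi
  have h1 : ts (X ^ 2 * (C ((taylor 1 g).coeff i) * (X ^ 3 - 1) ^ i) : K[X]) =
      ts (X ^ 2 : K[X]) * (PowerSeries.C ((taylor 1 g).coeff i) *
        (PowerSeries.X * ts (X ^ 2 + X + 1 : K[X])) ^ i) := by
    rw [map_mul, map_mul ts (C _), red_ts_C, map_pow ts (X ^ 3 - 1)]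
    congr 3
    have : (X ^ 3 - 1 : K[X]) = (X - 1) * (X ^ 2 + X + 1) := by ring
    rw [this, map_mul, map_sub, map_one, red_ts_X]
    congr 1
    ring
  have h2 : ts ((X ^ 2 + X + 1 : K[X]) ^ (2 * L)) = ts (X ^ 2 + X + 1 : K[X]) ^ (2 * L) :=
    map_pow _ _ _
  rw [h1, h2, red_inv_pow _ hVc]
  generalize hV : ts (X ^ 2 + X + 1 : K[X]) = V at hVG ⊢
  have h3 : ts (X ^ 2 : K[X]) * (PowerSeries.C ((taylor 1 g).coeff i) *
      (PowerSeries.X * V) ^ i) * V⁻¹ ^ (2 * L) =
      PowerSeries.C ((taylor 1 g).coeff i) * (PowerSeries.X ^ i *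
        (ts (X ^ 2 : K[X]) * V⁻¹ ^ (2 * L - i))) := by
    have h4 : V⁻¹ ^ (2 * L) = V⁻¹ ^ i * V⁻¹ ^ (2 * L - i) := by
      rw [← pow_add]
      congr 1
      omega
    rw [h4, mul_pow]
    calc _ = PowerSeries.C ((taylor 1 g).coeff i) * (PowerSeries.X ^ i *
        (ts (X ^ 2 : K[X]) * V⁻¹ ^ (2 * L - i))) * (V * V⁻¹) ^ i := by
          rw [mul_pow]
          ring
      _ = _ := by rw [hVG, one_pow, mul_one]
  rw [h3, PowerSeries.coeff_C_mul, PowerSeries.coeff_X_pow_mul', if_pos (by omega)]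
  have h5 := red_key (K := K) (2 * L - 1 - i) (by omega)
  rw [hV] at h5
  have h6 : 2 * L - 1 - i + 1 = 2 * L - i := by omega
  rw [h6] at h5
  rw [h5, mul_zero]

end red

theorem red_map (m : ℕ) (p : ℚ[X]) (n : ℕ) :
    res m (p.map (algebraMap ℚ ℂ)) ((X ^ 2 + X + 1) ^ n) =
      algebraMap ℚ ℂ (res m p ((X ^ 2 + X + 1) ^ n)) := by
  have hts : ∀ q : ℚ[X], ts (q.map (algebraMap ℚ ℂ)) = PowerSeries.map (algebraMap ℚ ℂ) (ts q) := by
    intro q
    rw [red_ts_apply, red_ts_apply, ← Polynomial.polynomial_map_coe, Polynomial.map_comp]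
    simp
  have hd : ((X ^ 2 + X + 1 : ℂ[X]) ^ n) = ((X ^ 2 + X + 1 : ℚ[X]) ^ n).map (algebraMap ℚ ℂ) := by
    simp
  have hc : PowerSeries.constantCoeff (ts ((X ^ 2 + X + 1 : ℚ[X]) ^ n)) ≠ 0 := by
    rw [red_cc]
    simp only [eval_add, eval_pow, eval_X, eval_one, one_pow]
    positivity
  have hc' : PowerSeries.constantCoeff (ts ((X ^ 2 + X + 1 : ℂ[X]) ^ n)) ≠ 0 := by
    rw [red_cc]
    simp only [eval_add, eval_pow, eval_X, eval_one, one_pow]
    exact pow_ne_zero _ (by norm_num)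
  unfold res
  have h1 : (ts ((X ^ 2 + X + 1 : ℂ[X]) ^ n))⁻¹ =
      PowerSeries.map (algebraMap ℚ ℂ) ((ts ((X ^ 2 + X + 1 : ℚ[X]) ^ n))⁻¹) := by
    symm
    rw [PowerSeries.eq_inv_iff_mul_eq_one hc', hd, hts, ← map_mul,
      mul_comm, PowerSeries.mul_inv_cancel _ hc, map_one]
  rw [h1, hts, ← map_mul, PowerSeries.coeff_map]

theorem red_err (m : ℕ) (q d : ℂ[X]) (n : ℕ) (h : m < n) : res m ((X - 1) ^ n * q) d = 0 := by
  unfold res
  have h1 : ts ((X - 1 : ℂ[X]) ^ n * q) = PowerSeries.X ^ n * ts q := by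
    rw [map_mul, map_pow, map_sub, map_one, red_ts_X, add_sub_cancel_right]
  rw [h1, mul_assoc, PowerSeries.coeff_X_pow_mul', if_neg (by omega)]

theorem cx_mul (p q : ℚ[X]) : cx (p * q) = cx p * cx q := by
  unfold cx
  rw [Polynomial.map_mul, map_mul]

theorem cx_sub (p q : ℚ[X]) : cx (p - q) = cx p - cx q := by
  unfold cx
  rw [Polynomial.map_sub, map_sub]

theorem cx_X_add : cx (X + 1) = X ^ 3 + 1 := by
  unfold cx
  simp

theorem s_red : S_red := by
  intro P Ps hP a b ha hb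
  set L := a + b + 1 with hL
  have ha1 : 1 ≤ a := ha.pos
  have hb1 : 1 ≤ b := hb.pos
  -- reflection at `-1`
  have hrefl : ∀ n, (Ps n).eval (-1) * (-1) ^ n = (P n).eval (-1) := by
    intro n
    let inst1 : Invertible (-1 : ℚ) := ⟨-1, by norm_num, by norm_num⟩
    have h1 := eval₂_reflect_mul_pow (RingHom.id ℚ) (-1 : ℚ) n (P n) (hP.deg n)
    rw [← hP.refl n] at h1
    exact h1
  have hroot : (X + 1 : ℚ[X]) ∣ P a * Ps b - P b * Ps a := by
    have h1 : (X + 1 : ℚ[X]) = X - C (-1) := by simp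
    rw [h1, dvd_iff_isRoot, IsRoot.def, eval_sub, eval_mul, eval_mul, ← hrefl a, ← hrefl b,
      ha.neg_one_pow, hb.neg_one_pow]
    ring
  obtain ⟨K', hK'⟩ := hroot
  have hPs : ∀ n, (Ps n).natDegree ≤ n := by
    intro n
    rw [hP.refl n]
    exact natDegree_reflect_le.trans (max_le le_rfl (hP.deg n))
  have hdegK : (P a * Ps b - P b * Ps a).natDegree ≤ a + b := by
    refine (natDegree_sub_le _ _).trans (max_le ?_ ?_)
    · exact natDegree_mul_le.trans (add_le_add (hP.deg a) (hPs b))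
    · exact (natDegree_mul_le.trans (add_le_add (hP.deg b) (hPs a))).trans (by omega)
  have hdegK' : K'.natDegree + 1 ≤ a + b := by
    by_cases h0 : K' = 0
    · rw [h0, natDegree_zero]
      omega
    · have h1 : (X + 1 : ℚ[X]).natDegree = 1 := by
        have : (X + 1 : ℚ[X]) = X + C 1 := by simp
        rw [this, natDegree_X_add_C]
      have h2 : (X + 1 : ℚ[X]) ≠ 0 := by
        intro h
        rw [h, natDegree_zero] at h1
        exact zero_ne_one h1
      rw [hK', natDegree_mul h2 h0, h1] at hdegK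
      omega
  have hmapdeg : ∀ p : ℚ[X], (p.map (algebraMap ℚ ℂ)).natDegree ≤ p.natDegree :=
    fun p => natDegree_map_le
  have hZ : ∀ p : ℚ[X], p.natDegree + 2 ≤ 2 * L →
      res (2 * L - 1) (X ^ 2 * cx p) ((X ^ 2 + X + 1) ^ (2 * L)) = 0 := by
    intro p hp
    exact red_zero L (p.map (algebraMap ℚ ℂ)) (by have := hmapdeg p; omega)
  have hZ1 : res (2 * L - 1) (X ^ 2 * cx (P L * K')) ((X ^ 2 + X + 1) ^ (2 * L)) = 0 := by
    refine hZ _ ?_
    have h1 : (P L * K').natDegree ≤ L + K'.natDegree :=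
      natDegree_mul_le.trans (add_le_add (hP.deg L) le_rfl)
    omega
  have hZ2 : res (2 * L - 1) (X ^ 2 * cx (Ps L * K')) ((X ^ 2 + X + 1) ^ (2 * L)) = 0 := by
    refine hZ _ ?_
    have h1 : (Ps L * K').natDegree ≤ L + K'.natDegree :=
      natDegree_mul_le.trans (add_le_add (hPs L) le_rfl)
    omega
  -- the error
  obtain ⟨q, hq⟩ := hP.div L
  have hqc : X * cx (Ps L) - cx (P L) = (X - 1) ^ (2 * L + 1) * q.map (algebraMap ℚ ℂ) := by
    have h1 := congrArg (Polynomial.map (algebraMap ℚ ℂ)) hq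
    rw [Polynomial.map_sub, Polynomial.map_mul, Polynomial.map_mul, Polynomial.map_pow,
      Polynomial.map_sub, Polynomial.map_X, Polynomial.map_one, Polynomial.map_expand,
      Polynomial.map_expand] at h1
    exact h1
  have hZ3 : res (2 * L - 1) (X * cx (P L * K')) ((X ^ 2 + X + 1) ^ (2 * L)) = 0 := by
    have h1 : X * cx (P L * K') = X ^ 2 * cx (Ps L * K') -
        (X - 1) ^ (2 * L + 1) * (q.map (algebraMap ℚ ℂ) * (X * cx K')) := by
      rw [cx_mul, cx_mul]
      have : cx (P L) = X * cx (Ps L) - (X - 1) ^ (2 * L + 1) * q.map (algebraMap ℚ ℂ) := by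
        rw [← hqc]
        ring
      rw [this]
      ring
    rw [h1, red_res_sub, hZ2, red_err _ _ _ _ (by omega), sub_zero]
  -- the difference
  have hdiff : rho P Ps a b - rho P Ps b a =
      3 / 2 * res (2 * L - 1) (cx (P L * (P a * Ps b - P b * Ps a)))
        ((X ^ 2 + X + 1) ^ (2 * L)) := by
    unfold rho
    have e1 : b + a + 1 = L := by omega
    rw [e1, ← hL, ← mul_sub, ← red_res_sub]
    congr 1
    have e2 : (X - 1) ^ 2 * cx (P a) * cx (P L) * (X * cx (Ps b) - cx (P b)) -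
        (X - 1) ^ 2 * cx (P b) * cx (P L) * (X * cx (Ps a) - cx (P a)) =
        X * ((X - 1) ^ 2 * (cx (P L) * cx (P a * Ps b - P b * Ps a))) := by
      rw [cx_sub, cx_mul, cx_mul]
      ring
    have e3 : (X * (X ^ 2 - X + 1) * (X ^ 2 + X + 1) ^ (2 * L) : ℂ[X]) =
        X * ((X ^ 2 - X + 1) * (X ^ 2 + X + 1) ^ (2 * L)) := by ring
    rw [e2, e3, red_res_cancel _ _ _ _ (by simp), hK', cx_mul, cx_X_add]
    have e4 : (X - 1 : ℂ[X]) ^ 2 * (cx (P L) * ((X ^ 3 + 1) * cx K')) =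
        (X ^ 2 - X + 1) * (cx (P L) * ((X ^ 3 + 1) * cx K') -
          X * (cx (P L) * cx K') - X ^ 2 * (cx (P L) * cx K')) := by
      ring
    rw [e4, red_res_cancel _ _ _ _ (by simp), red_res_sub, red_res_sub, ← cx_mul (P L) K', hZ1,
      hZ3, sub_zero, sub_zero, cx_mul (P L), cx_mul (X + 1), cx_X_add]
  rw [hdiff]
  have hML : ML P L (P a * Ps b) - ML P L (P b * Ps a) =
      3 * res (2 * L - 1) (expand ℚ 3 (P L * (P a * Ps b - P b * Ps a)))
        ((X ^ 2 + X + 1) ^ (2 * L)) := by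
    unfold ML
    rw [← mul_sub, ← red_res_sub, ← map_sub, ← mul_sub]
  rw [hML]
  have hcx : cx (P L * (P a * Ps b - P b * Ps a)) =
      (expand ℚ 3 (P L * (P a * Ps b - P b * Ps a))).map (algebraMap ℚ ℂ) := by
    unfold cx
    rw [Polynomial.map_expand]
  rw [hcx, red_map]
  simp only [eq_ratCast]
  push_cast
  ring

end Pool.Agent.H981R2.CD
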