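import Pool.Agent.H981R2.CD.Defs

/-!
Task B2_span: structure of `Z_{N+1}(x, 2, …, 2)`
-/

namespace Pool.Agent.H981R2.CD

open Polynomial Filter Topology

/-- distinct points near `2` -/
noncomputable def span_e (N : ℕ) (ε : ℂ) (i : Fin N) : ℂ := 2 + (((i : ℕ) : ℂ) + 1) * ε

/-- minors -/
noncomputable def span_m {N : ℕ} (e : Fin N → ℂ) (j : Fin (N + 1)) : ℂ :=
  (Matrix.of fun i k : Fin N => bas (j.succAbove k) (e i)).det

theorem span_vand {N : ℕ} (x : ℂ) (e : Fin N → ℂ) :
    (Matrix.vandermonde (Fin.cons x e : Fin (N + 1) → ℂ)).det =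
      (∏ i, (e i - x)) * (Matrix.vandermonde e).det := by
  rw [Matrix.det_vandermonde, Matrix.det_vandermonde, Fin.prod_univ_succ]
  congr 1
  · rw [Fin.prod_Ioi_zero]
    simp
  · refine Finset.prod_congr rfl fun i _ => ?_
    rw [Fin.prod_Ioi_succ]
    simp

theorem span_key (Z : (N : ℕ) → (Fin N → ℂ) → ℂ) (hZ : IsZ Z) (N : ℕ) (e : Fin N → ℂ)
    (he : Function.Injective e) (x : ℂ) :
    Z (N + 1) (Fin.cons x e) * ∏ i, (x - e i) - Z N e * bas N x =
      ∑ j : Fin N, ((-1) ^ (N + (j : ℕ)) * span_m e j.castSucc / (Matrix.vandermonde e).det) *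
        bas j x := by
  have hV : (Matrix.vandermonde e).det ≠ 0 := Matrix.det_vandermonde_ne_zero_iff.2 he
  have h1 := hZ.det (N + 1) (Fin.cons x e)
  rw [span_vand, Matrix.det_succ_row_zero, Fin.sum_univ_castSucc] at h1
  have h2 : ∀ j : Fin (N + 1), ((Matrix.of fun i k : Fin (N + 1) =>
      bas k ((Fin.cons x e : Fin (N + 1) → ℂ) i)).submatrix Fin.succ j.succAbove).det =
      span_m e j := by
    intro j
    unfold span_m
    congr 1
  have h3 : span_m e (Fin.last N) = Z N e * (Matrix.vandermonde e).det := by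
    rw [hZ.det N e]
    unfold span_m
    congr 1
    ext i k
    simp
  simp only [h2, h3, Matrix.of_apply, Fin.cons_zero, Fin.val_castSucc, Fin.val_last] at h1
  have h4 : ∏ i, (x - e i) = (-1) ^ N * ∏ i, (e i - x) := by
    have : ∀ i, x - e i = (-1) * (e i - x) := fun i => by ring
    simp only [this]
    rw [Finset.prod_mul_distrib, Finset.prod_const, Finset.card_univ, Fintype.card_fin]
  have h5 : ((-1 : ℂ) ^ N) * (-1) ^ N = 1 := by
    rw [← mul_pow]
    norm_num
  have h6 : ∑ j : Fin N, ((-1) ^ (N + (j : ℕ)) * span_m e j.castSucc /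
      (Matrix.vandermonde e).det) * bas j x = (-1) ^ N * (∑ j : Fin N, (-1) ^ (j : ℕ) *
        bas j x * span_m e j.castSucc) / (Matrix.vandermonde e).det := by
    rw [Finset.mul_sum, Finset.sum_div]
    refine Finset.sum_congr rfl fun j _ => ?_
    rw [pow_add]
    ring
  rw [h6, eq_div_iff hV, h4]
  linear_combination (-1) ^ N * h1 + (Z N e * bas N x * (Matrix.vandermonde e).det) * h5

theorem span_e_inj (N : ℕ) (ε : ℂ) (hε : ε ≠ 0) : Function.Injective (span_e N ε) := by
  intro i j h
  unfold span_e at h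
  have h1 : (((i : ℕ) : ℂ) + 1) * ε = (((j : ℕ) : ℂ) + 1) * ε := add_left_cancel h
  have h2 := mul_right_cancel₀ hε h1
  have h3 : ((i : ℕ) : ℂ) = ((j : ℕ) : ℂ) := add_right_cancel h2
  exact Fin.ext (by exact_mod_cast h3)

theorem s_span : S_span := by
  intro Z hZ N
  set V : Submodule ℂ (ℂ → ℂ) :=
    Submodule.span ℂ (Set.range fun j : Fin N => (fun x : ℂ => bas j x)) with hV
  have hfin : FiniteDimensional ℂ V := FiniteDimensional.span_of_finite ℂ (Set.finite_range _)
  have hcl : IsClosed (V : Set (ℂ → ℂ)) := V.closed_of_finiteDimensional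
  let G : ℂ → ℂ → ℂ := fun ε x =>
    Z (N + 1) (Fin.cons x (span_e N ε)) * ∏ i, (x - span_e N ε i) - Z N (span_e N ε) * bas N x
  have hec : Continuous (span_e N) := by
    refine continuous_pi fun i => ?_
    unfold span_e
    fun_prop
  have hG : Continuous G := by
    refine continuous_pi fun x => ?_
    have h1 : Continuous fun ε : ℂ => Z (N + 1) (Fin.cons x (span_e N ε)) := by
      refine (hZ.cont (N + 1)).comp (continuous_pi fun i => ?_)
      refine Fin.cases ?_ (fun i => ?_) i
      · simp only [Fin.cons_zero]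
        exact continuous_const
      · simp only [Fin.cons_succ]
        exact (continuous_apply i).comp hec
    have h2 : Continuous fun ε : ℂ => ∏ i, (x - span_e N ε i) :=
      continuous_finsetProd _ fun i _ => continuous_const.sub ((continuous_apply i).comp hec)
    have h3 : Continuous fun ε : ℂ => Z N (span_e N ε) := (hZ.cont N).comp hec
    exact (h1.mul h2).sub (h3.mul continuous_const)
  have hmem : ∀ ε : ℂ, ε ≠ 0 → G ε ∈ V := by
    intro ε hε
    have h1 : G ε = ∑ j : Fin N, ((-1) ^ (N + (j : ℕ)) * span_m (span_e N ε) j.castSucc /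
        (Matrix.vandermonde (span_e N ε)).det) • (fun x : ℂ => bas j x) := by
      funext x
      rw [Finset.sum_apply]
      exact span_key Z hZ N _ (span_e_inj N ε hε) x
    rw [h1]
    exact Submodule.sum_mem _ fun j _ =>
      Submodule.smul_mem _ _ (Submodule.subset_span ⟨j, rfl⟩)
  have h0 : G 0 ∈ V := by
    have ht : Tendsto G (𝓝[≠] (0 : ℂ)) (𝓝 (G 0)) := (hG.tendsto 0).mono_left nhdsWithin_le_nhds
    refine hcl.mem_of_tendsto ht ?_
    filter_upwards [self_mem_nhdsWithin] with ε hε
    exact hmem ε hε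
  rw [hV, Submodule.mem_span_range_iff_exists_fun] at h0
  obtain ⟨c', hc'⟩ := h0
  have he0 : span_e N 0 = fun _ => 2 := by
    funext i
    unfold span_e
    ring
  refine ⟨Fin.snoc c' (Z N (fun _ => 2)), Fin.snoc_last _ _, fun x => ?_⟩
  rw [Fin.sum_univ_castSucc]
  have h1 := congrFun hc' x
  rw [Finset.sum_apply] at h1
  simp only [Pi.smul_apply, smul_eq_mul, G, he0] at h1
  simp only [Fin.snoc_castSucc, Fin.snoc_last, Fin.val_castSucc, Fin.val_last]
  rw [h1, Finset.prod_const, Finset.card_univ, Fintype.card_fin]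
  unfold pt
  ring

end Pool.Agent.H981R2.CD
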