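import Pool.Agent.H981R2.CD.Defs

namespace Pool.Agent.H981R2.CD

open Polynomial

/-- sparse polynomials: at most `M` monomials and divisible by `(X-1)^M` implies zero -/
theorem s_sparse : S_sparse := by
  intro M
  induction M with
  | zero =>
    intro f hf _
    exact Polynomial.support_eq_empty.1 (Finset.card_eq_zero.1 (Nat.le_zero.1 hf))
  | succ M ih =>
    intro f hf hdiv
    by_contra hne
    obtain ⟨e0, he0⟩ := Polynomial.nonempty_support_iff.2 hne
    have hcoef : ∀ k : ℕ, (X * derivative f - C (e0 : ℂ) * f).coeff k =
        ((k : ℂ) - e0) * f.coeff k := by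
      intro k
      rw [Polynomial.coeff_sub, Polynomial.coeff_C_mul]
      rcases k with _ | k
      · simp
      · rw [Polynomial.coeff_X_mul, Polynomial.coeff_derivative]
        push_cast
        ring
    have hsupp : (X * derivative f - C (e0 : ℂ) * f).support ⊆ f.support.erase e0 := by
      intro k hk
      rw [Polynomial.mem_support_iff, hcoef] at hk
      rw [Finset.mem_erase, Polynomial.mem_support_iff]
      refine ⟨?_, right_ne_zero_of_mul hk⟩
      rintro rfl
      exact hk (by simp)
    have hcard : (X * derivative f - C (e0 : ℂ) * f).support.card ≤ M := by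
      refine (Finset.card_le_card hsupp).trans ?_
      rw [Finset.card_erase_of_mem he0]
      omega
    have hd1 : (X - 1 : ℂ[X]) ^ M ∣ derivative f := by
      have := Polynomial.pow_sub_one_dvd_derivative_of_pow_dvd hdiv
      simpa using this
    have hd2 : (X - 1 : ℂ[X]) ^ M ∣ X * derivative f - C (e0 : ℂ) * f :=
      dvd_sub (hd1.mul_left _) (((pow_dvd_pow _ (Nat.le_succ M)).trans hdiv).mul_left _)
    have hg := ih _ hcard hd2
    have hzero : ∀ k, k ≠ e0 → f.coeff k = 0 := by
      intro k hk
      have h1 := hcoef k
      rw [hg, Polynomial.coeff_zero] at h1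
      rcases mul_eq_zero.1 h1.symm with h2 | h2
      · exfalso
        apply hk
        have h3 : (k : ℂ) = e0 := sub_eq_zero.1 h2
        exact_mod_cast h3
      · exact h2
    have hmon : f = monomial e0 (f.coeff e0) := by
      ext k
      rw [Polynomial.coeff_monomial]
      split_ifs with h
      · rw [h]
      · exact hzero k (Ne.symm h)
    have hev : f.eval 1 = 0 := by
      have h1 : (X - 1 : ℂ[X]) ∣ f := (dvd_pow_self _ (Nat.succ_ne_zero M)).trans hdiv
      obtain ⟨h, hh⟩ := h1
      rw [hh]
      simp
    rw [hmon, Polynomial.eval_monomial, one_pow, mul_one] at hev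
    exact (Polynomial.mem_support_iff.1 he0) hev

end Pool.Agent.H981R2.CD
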